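import Pool.Agent.helper90.ZD.SpecB

/-!
# Project zd, module BCF: reduced fractions in a short interval
-/

set_option autoImplicit false

open Complex MeasureTheory

namespace Pool.Agent.ZD

/-- Distinct reduced fractions with denominators at most `Q` differ by at least `1/Q²`. -/
theorem BCF_sep (Q : ℕ) (p q : ℕ × ℕ) (hp2 : 1 ≤ p.2) (hpQ : p.2 ≤ Q)
    (hq2 : 1 ≤ q.2) (hqQ : q.2 ≤ Q) (hp : Nat.Coprime p.1 p.2) (hq : Nat.Coprime q.1 q.2)
    (h : |(p.1 : ℝ) / p.2 - (q.1 : ℝ) / q.2| * (Q : ℝ) ^ 2 < 1) : p = q := by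
  have hp2' : (0 : ℝ) < p.2 := by exact_mod_cast hp2
  have hq2' : (0 : ℝ) < q.2 := by exact_mod_cast hq2
  have hpQ' : (p.2 : ℝ) ≤ Q := by exact_mod_cast hpQ
  have hqQ' : (q.2 : ℝ) ≤ Q := by exact_mod_cast hqQ
  -- the cross product vanishes
  have hcross : ((p.1 : ℤ) * q.2 - (q.1 : ℤ) * p.2) = 0 := by
    by_contra hne
    have h1 : (1 : ℤ) ≤ |(p.1 : ℤ) * q.2 - (q.1 : ℤ) * p.2| := Int.one_le_abs hne
    have h1' : (1 : ℝ) ≤ |(p.1 : ℝ) * q.2 - (q.1 : ℝ) * p.2| := by exact_mod_cast h1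
    have h2 : (p.1 : ℝ) / p.2 - (q.1 : ℝ) / q.2 =
        ((p.1 : ℝ) * q.2 - (q.1 : ℝ) * p.2) / (p.2 * q.2) := by
      field_simp
    rw [h2, abs_div, abs_of_pos (mul_pos hp2' hq2')] at h
    have h3 : (p.2 : ℝ) * q.2 ≤ (Q : ℝ) ^ 2 := by nlinarith
    have h4 : |(p.1 : ℝ) * q.2 - (q.1 : ℝ) * p.2| / (p.2 * q.2) * (p.2 * q.2) ≤
        |(p.1 : ℝ) * q.2 - (q.1 : ℝ) * p.2| / (p.2 * q.2) * (Q : ℝ) ^ 2 :=
      mul_le_mul_of_nonneg_left h3 (by positivity)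
    rw [div_mul_cancel₀ _ (mul_pos hp2' hq2').ne'] at h4
    linarith
  have hcr : p.1 * q.2 = q.1 * p.2 := by
    have : (p.1 : ℤ) * q.2 = (q.1 : ℤ) * p.2 := by linarith
    exact_mod_cast this
  have hd1 : p.2 ∣ q.2 := by
    have : p.2 ∣ p.1 * q.2 := by rw [hcr]; exact Dvd.intro_left _ rfl
    exact (Nat.Coprime.dvd_mul_left hp.symm).mp this
  have hd2 : q.2 ∣ p.2 := by
    have : q.2 ∣ q.1 * p.2 := by rw [← hcr]; exact Dvd.intro_left _ rfl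
    exact (Nat.Coprime.dvd_mul_left hq.symm).mp this
  have he : p.2 = q.2 := Nat.dvd_antisymm hd1 hd2
  have he1 : p.1 = q.1 := by
    rw [he] at hcr
    exact Nat.eq_of_mul_eq_mul_right (by omega) hcr
  exact Prod.ext he1 he

theorem BCF : BCF_stmt := by
  intro Q z η hQ hη hη1 P hP
  rcases P.eq_empty_or_nonempty with rfl | hne
  · simp only [Finset.card_empty, Nat.cast_zero]
    positivity
  obtain ⟨p0, hp0, hmin⟩ := P.exists_min_image (fun p => (p.1 : ℝ) / p.2) hne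
  have hQ' : (1 : ℝ) ≤ Q := by exact_mod_cast hQ
  have hexp : Real.exp (2 * η) - 1 ≤ 16 * η := by
    -- exp (2η) = exp η ^ 2 and exp η ≤ 1 + (e - 1) η
    have h1 : 1 - 2 * η ≤ Real.exp (-(2 * η)) := by
      have := Real.add_one_le_exp (-(2 * η)); linarith
    have h2 : Real.exp (2 * η) * Real.exp (-(2 * η)) = 1 := by
      rw [← Real.exp_add]; simp
    have h3 : Real.exp (2 * η) ≤ Real.exp 2 := Real.exp_le_exp.mpr (by linarith)
    have h4 : Real.exp 2 ≤ 8 := by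
      have h5 : Real.exp 2 = Real.exp 1 ^ 2 := by rw [← Real.exp_nat_mul]; norm_num
      rw [h5]
      have := Real.exp_one_lt_d9
      have h0 := Real.exp_pos 1
      nlinarith
    have h6 : Real.exp (2 * η) * (1 - 2 * η) ≤ 1 :=
      (mul_le_mul_of_nonneg_left h1 (Real.exp_pos _).le).trans h2.le
    nlinarith [mul_nonneg hη.le (sub_nonneg.mpr (h3.trans h4))]
  have key : ∀ p ∈ P, (p.1 : ℝ) / p.2 - (p0.1 : ℝ) / p0.2 ≤ 64 * η := by
    intro p hp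
    obtain ⟨h1, -, h2, -, h4, -, h6⟩ := hP p hp
    obtain ⟨g1, -, g2, -, g4, -, g6⟩ := hP p0 hp0
    have h1' : (0 : ℝ) < p.1 := by exact_mod_cast h1
    have h2' : (0 : ℝ) < p.2 := by exact_mod_cast h2
    have g1' : (0 : ℝ) < p0.1 := by exact_mod_cast g1
    have g2' : (0 : ℝ) < p0.2 := by exact_mod_cast g2
    have g4' : (p0.1 : ℝ) ≤ 4 * p0.2 := by exact_mod_cast g4
    have a1 := abs_le.mp h6
    have a2 := abs_le.mp g6
    have e1 : Real.log ((p.1 : ℝ) / p.2) ≤ Real.log ((p0.1 : ℝ) / p0.2) + 2 * η := by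
      rw [Real.log_div h1'.ne' h2'.ne', Real.log_div g1'.ne' g2'.ne']
      linarith [a1.1, a1.2, a2.1, a2.2]
    have e2 : (p.1 : ℝ) / p.2 ≤ (p0.1 : ℝ) / p0.2 * Real.exp (2 * η) := by
      have := Real.exp_le_exp.mpr e1
      rwa [Real.exp_log (by positivity), Real.exp_add, Real.exp_log (by positivity)] at this
    have e3 : (p0.1 : ℝ) / p0.2 ≤ 4 := by rw [div_le_iff₀ g2']; exact g4'
    have e4 : 0 ≤ (p0.1 : ℝ) / p0.2 := by positivity
    have e5 : 1 ≤ Real.exp (2 * η) := Real.one_le_exp (by positivity)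
    nlinarith
  have hle : P.card ≤ (Finset.range (⌊64 * η * (Q : ℝ) ^ 2⌋₊ + 1)).card := by
    refine Finset.card_le_card_of_injOn
      (fun p => ⌊((p.1 : ℝ) / p.2 - (p0.1 : ℝ) / p0.2) * (Q : ℝ) ^ 2⌋₊) ?_ ?_
    · intro p hp
      rw [Finset.mem_coe] at hp
      rw [Finset.mem_coe, Finset.mem_range, Nat.lt_succ_iff]
      refine Nat.floor_le_floor ?_
      exact mul_le_mul_of_nonneg_right (key p hp) (by positivity)
    · intro p hp q hq hpq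
      rw [Finset.mem_coe] at hp hq
      obtain ⟨-, -, h2, h3, -, h5, -⟩ := hP p hp
      obtain ⟨-, -, g2, g3, -, g5, -⟩ := hP q hq
      refine BCF_sep Q p q h2 h3 g2 g3 h5 g5 ?_
      have n1 : 0 ≤ ((p.1 : ℝ) / p.2 - (p0.1 : ℝ) / p0.2) * (Q : ℝ) ^ 2 :=
        mul_nonneg (by linarith [hmin p hp]) (by positivity)
      have n2 : 0 ≤ ((q.1 : ℝ) / q.2 - (p0.1 : ℝ) / p0.2) * (Q : ℝ) ^ 2 :=
        mul_nonneg (by linarith [hmin q hq]) (by positivity)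
      have f1 := Nat.floor_le n1
      have f2 := Nat.lt_floor_add_one (((p.1 : ℝ) / p.2 - (p0.1 : ℝ) / p0.2) * (Q : ℝ) ^ 2)
      have f3 := Nat.floor_le n2
      have f4 := Nat.lt_floor_add_one (((q.1 : ℝ) / q.2 - (p0.1 : ℝ) / p0.2) * (Q : ℝ) ^ 2)
      have hpq' : ((⌊((p.1 : ℝ) / p.2 - (p0.1 : ℝ) / p0.2) * (Q : ℝ) ^ 2⌋₊ : ℕ) : ℝ) =
          ((⌊((q.1 : ℝ) / q.2 - (p0.1 : ℝ) / p0.2) * (Q : ℝ) ^ 2⌋₊ : ℕ) : ℝ) := by
        exact_mod_cast hpq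
      rw [hpq'] at f1 f2
      have hQ2 : (0 : ℝ) ≤ (Q : ℝ) ^ 2 := by positivity
      rw [← abs_of_nonneg hQ2, ← abs_mul, abs_lt]
      constructor
      · nlinarith
      · nlinarith
  rw [Finset.card_range] at hle
  have hle' : (P.card : ℝ) ≤ (⌊64 * η * (Q : ℝ) ^ 2⌋₊ : ℝ) + 1 := by exact_mod_cast hle
  have hfl : (⌊64 * η * (Q : ℝ) ^ 2⌋₊ : ℝ) ≤ 64 * η * (Q : ℝ) ^ 2 := Nat.floor_le (by positivity)
  have hpos : 0 ≤ η * (Q : ℝ) ^ 2 := by positivity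
  nlinarith

end Pool.Agent.ZD
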